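import Pool.Agent.L7h10.AB.Stm2

/-! Project AB (helper10), part CB, the case `g b = 0`. -/

set_option autoImplicit false

namespace Pool.Agent.L7h60.AB

open Pool.Agent.L7h10.AB Polynomial

theorem card_cover {D Y : Type} [Finite D] (ψ : D → Y) (P : Y → Prop)
    (h : ∀ y, P y → ∃ d, ψ d = y) : Nat.card {y // P y} ≤ Nat.card D := by
  choose f hf using h
  apply Nat.card_le_card_of_injective (fun y : {y // P y} => f y.1 y.2)
  intro x y hxy
  apply Subtype.ext
  rw [← hf x.1 x.2, ← hf y.1 y.2]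
  exact congrArg ψ hxy

theorem cb0 (hC : S_CARD) (K : Type) [Field K] [Finite K] (p : ℕ) [CharP K p] (n : ℕ)
    (hn : 6 ≤ n) (hp : n + 1 < p) :
    Nat.card {x : K × Mon K 2 × Mon K (n - 3) // x.2.1.1.eval x.1 = 0 ∧
      (X - C x.1) ^ 2 ∣ derivative (x.2.1.1 ^ 2 * x.2.2.1)} ≤ 2 * Nat.card K ^ (n - 2) := by
  classical
  have f3 : Finite (Mon K (n - 3)) := (hC K (n - 3)).1
  have f4 : Finite (Mon K (n - 4)) := (hC K (n - 4)).1
  let ψ : (K × Mon K (n - 3)) ⊕ (K × K × Mon K (n - 4)) → K × Mon K 2 × Mon K (n - 3) := fun d =>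
    match d with
    | Sum.inl (b, h) => (b, ⟨(X - C b) ^ 2, (monic_X_sub_C b).pow 2, by
        rw [(monic_X_sub_C b).natDegree_pow, natDegree_X_sub_C]⟩, h)
    | Sum.inr (b, e, k) => (b, ⟨(X - C b) * (X - C e), (monic_X_sub_C b).mul (monic_X_sub_C e), by
        rw [(monic_X_sub_C b).natDegree_mul (monic_X_sub_C e), natDegree_X_sub_C,
          natDegree_X_sub_C]⟩, ⟨(X - C b) * k.1, (monic_X_sub_C b).mul k.2.1, by
        rw [(monic_X_sub_C b).natDegree_mul k.2.1, natDegree_X_sub_C, k.2.2]; omega⟩)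
  have key := card_cover ψ (fun x : K × Mon K 2 × Mon K (n - 3) => x.2.1.1.eval x.1 = 0 ∧
      (X - C x.1) ^ 2 ∣ derivative (x.2.1.1 ^ 2 * x.2.2.1)) (by
    rintro ⟨b, ⟨g, gm, gd⟩, ⟨h, hm, hd⟩⟩ ⟨h1, h2⟩
    simp only at h1 h2
    obtain ⟨l, hl⟩ := dvd_iff_isRoot.2 h1
    have lm : l.Monic := by
      have : ((X - C b) * l).Monic := hl ▸ gm
      exact (monic_X_sub_C b).of_mul_monic_left this
    have ld : l.natDegree = 1 := by
      have h3 : ((X - C b) * l).natDegree = 2 := hl ▸ gd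
      rw [(monic_X_sub_C b).natDegree_mul lm, natDegree_X_sub_C] at h3
      omega
    have le : l = X - C (-l.coeff 0) := by
      have h5 := lm.as_sum
      rw [ld, Finset.sum_range_one] at h5
      rw [h5]
      simp
    have h2ne : (2 : K) ≠ 0 := by
      have := Pool.Agent.L7h56.AB.cast_ne (K := K) p (i := 2) (by norm_num) (by omega)
      exact_mod_cast this
    have hdv : (X - C b) ∣ l ^ 2 * h := by
      have e1 : derivative (g ^ 2 * h) = (X - C b) * (C 2 * (l ^ 2 * h)) +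
          (X - C b) ^ 2 * derivative (l ^ 2 * h) := by
        have e2 : g ^ 2 * h = (X - C b) ^ 2 * (l ^ 2 * h) := by rw [hl]; ring
        rw [e2, derivative_mul, derivative_X_sub_C_pow]
        simp only [Nat.cast_ofNat, pow_one, Nat.reduceSub, map_ofNat]
        ring
      rw [e1] at h2
      have h3 : (X - C b) ^ 2 ∣ (X - C b) * (C 2 * (l ^ 2 * h)) :=
        (dvd_add_left (dvd_mul_right _ _)).1 h2
      rw [pow_two] at h3
      have h4 := (mul_dvd_mul_iff_left (X_sub_C_ne_zero b)).1 h3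
      have h5 : IsUnit (C 2 : K[X]) := isUnit_C.2 (isUnit_iff_ne_zero.2 h2ne)
      exact (h5.dvd_mul_left).1 h4
    have hpr := (irreducible_X_sub_C b).prime
    rcases hpr.dvd_or_dvd hdv with h3 | h3
    · have h4 : (X - C b) ∣ l := hpr.dvd_of_dvd_pow h3
      have h5 : l = X - C b := by
        have := eq_of_monic_of_dvd_of_natDegree_le (monic_X_sub_C b) lm h4
          (by rw [ld, natDegree_X_sub_C])
        exact this
      refine ⟨Sum.inl (b, ⟨h, hm, hd⟩), ?_⟩
      have h6 : (X - C b) ^ 2 = g := by rw [hl, h5]; ring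
      subst h6
      rfl
    · obtain ⟨k, hk⟩ := h3
      have km : k.Monic := (monic_X_sub_C b).of_mul_monic_left (hk ▸ hm)
      have kd : k.natDegree = n - 4 := by
        have h7 : ((X - C b) * k).natDegree = n - 3 := hk ▸ hd
        rw [(monic_X_sub_C b).natDegree_mul km, natDegree_X_sub_C] at h7
        omega
      refine ⟨Sum.inr (b, -l.coeff 0, ⟨k, km, kd⟩), ?_⟩
      have h6 : (X - C b) * (X - C (-l.coeff 0)) = g := by rw [hl, ← le]
      simp only [ψ]
      refine Prod.ext rfl (Prod.ext (Subtype.ext h6) (Subtype.ext hk.symm)))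
  refine key.trans ?_
  rw [Nat.card_sum, Nat.card_prod, Nat.card_prod, Nat.card_prod, (hC K (n - 3)).2,
    (hC K (n - 4)).2]
  apply le_of_eq
  have e1 : n - 2 = 1 + (n - 3) := by omega
  have e2 : Nat.card K ^ (n - 3) = Nat.card K * Nat.card K ^ (n - 4) := by
    rw [← pow_succ']; congr 1; omega
  rw [e1, pow_add, pow_one, e2]
  ring

end Pool.Agent.L7h60.AB
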