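import Pool.Agent.L7h10.AB.Stm2

/-! Project AB (helper10), part CC, the coprime half. -/

set_option autoImplicit false

namespace Pool.Agent.L7h60.AB

open Pool.Agent.L7h10.AB Polynomial

/-- counting by fibres -/
theorem fib {T H X : Type} [Finite T] [Finite H] (φ : X → T × H) (hφ : Function.Injective φ)
    (S : T → Set H) (hS : ∀ x, (φ x).2 ∈ S (φ x).1) (B : ℕ) (hB : ∀ t, Nat.card (S t) ≤ B) :
    Nat.card X ≤ Nat.card T * B := by
  classical
  have := Fintype.ofFinite T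
  have h1 : Nat.card X ≤ Nat.card (Σ t, S t) := by
    apply Nat.card_le_card_of_injective (fun x => (⟨(φ x).1, ⟨(φ x).2, hS x⟩⟩ : Σ t, S t))
    intro x y hxy
    apply hφ
    have h1 := congrArg Sigma.fst hxy
    have h2 : ((φ x).2 : H) = (φ y).2 := by
      have := congrArg (fun z : (Σ t, S t) => (z.2 : H)) hxy
      exact this
    exact Prod.ext h1 h2
  refine h1.trans ?_
  rw [Nat.card_sigma]
  calc ∑ t, Nat.card (S t) ≤ ∑ _t : T, B := Finset.sum_le_sum fun t _ => hB t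
    _ = Nat.card T * B := by simp

theorem sub_const (K : Type) [Field K] (p : ℕ) [CharP K p] (n : ℕ) (hn : 3 ≤ n) (hp : n + 1 < p)
    (g g' : Mon K 2) (h h' : Mon K (n - 3))
    (hd : derivative (g.1 ^ 2 * h.1) = derivative (g'.1 ^ 2 * h'.1)) :
    g.1 ^ 2 * h.1 - g'.1 ^ 2 * h'.1 = C ((g.1 ^ 2 * h.1 - g'.1 ^ 2 * h'.1).coeff 0) := by
  have hdeg : ∀ (g : Mon K 2) (h : Mon K (n - 3)), (g.1 ^ 2 * h.1).natDegree = n + 1 := by
    intro g h
    rw [(g.2.1.pow 2).natDegree_mul h.2.1, g.2.1.natDegree_pow, g.2.2, h.2.2]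
    omega
  apply Pool.Agent.L7h56.AB.const_of_deriv p
  · refine lt_of_le_of_lt (natDegree_sub_le _ _) ?_
    rw [hdeg, hdeg]; simpa using hp
  · rw [derivative_sub, hd, sub_self]

theorem cc_cop (hC : S_CARD) (hR : S_RES) (K : Type) [Field K] [Finite K] (p : ℕ) [CharP K p]
    (n : ℕ) (hn : 7 ≤ n) (hp : n + 1 < p) :
    Nat.card {x : (Mon K 2 × Mon K (n - 3)) × (Mon K 2 × Mon K (n - 3)) //
      IsCoprime x.1.1.1 x.2.1.1 ∧
      derivative (x.1.1.1 ^ 2 * x.1.2.1) = derivative (x.2.1.1 ^ 2 * x.2.2.1)} ≤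
    Nat.card K ^ (n - 2) := by
  classical
  have f2 : Finite (Mon K 2) := (hC K 2).1
  have f3 : Finite (Mon K (n - 3)) := (hC K (n - 3)).1
  have key := fib
    (T := Mon K 2 × Mon K 2 × K) (H := Mon K (n - 3))
    (X := {x : (Mon K 2 × Mon K (n - 3)) × (Mon K 2 × Mon K (n - 3)) //
      IsCoprime x.1.1.1 x.2.1.1 ∧
      derivative (x.1.1.1 ^ 2 * x.1.2.1) = derivative (x.2.1.1 ^ 2 * x.2.2.1)})
    (fun x => ((x.1.1.1, x.1.2.1,
      (x.1.1.1.1 ^ 2 * x.1.1.2.1 - x.1.2.1.1 ^ 2 * x.1.2.2.1).coeff 0), x.1.1.2))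
    (by
      rintro ⟨⟨⟨g, h⟩, ⟨g', h'⟩⟩, hc, hd⟩ ⟨⟨⟨k, l⟩, ⟨k', l'⟩⟩, hc', hd'⟩ hxy
      simp only [Prod.mk.injEq] at hxy
      obtain ⟨⟨e1, e2, e3⟩, e4⟩ := hxy
      subst e1 e2 e4
      have a1 := sub_const K p n (by omega) hp _ _ _ _ hd
      have a2 := sub_const K p n (by omega) hp _ _ _ _ hd'
      simp only at a1 a2 e3
      rw [e3] at a1
      have a3 : g'.1 ^ 2 * h'.1 = g'.1 ^ 2 * l'.1 := by
        have := a1.trans a2.symm
        exact sub_right_injective this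
      have a4 : h' = l' := Subtype.ext (mul_left_cancel₀ (pow_ne_zero 2 g'.2.1.ne_zero) a3)
      subst a4
      rfl)
    (fun t => {h | IsCoprime t.1.1 t.2.1.1 ∧ t.2.1.1 ^ 2 ∣ t.1.1 ^ 2 * h.1 - C t.2.2})
    (by
      rintro ⟨⟨⟨g, h⟩, ⟨g', h'⟩⟩, hc, hd⟩
      refine ⟨hc, ?_⟩
      have a1 := sub_const K p n (by omega) hp _ _ _ _ hd
      simp only at a1 ⊢
      rw [← a1]
      exact ⟨h'.1, by ring⟩)
    (Nat.card K ^ (n - 7))
    (by
      rintro ⟨g, g', c⟩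
      by_cases hc : IsCoprime g.1 g'.1
      · obtain ⟨a, b, hab⟩ := (hc.pow (m := 2) (n := 2))
        have hres := hR K (n - 3) (g'.1 ^ 2) (a * C c) (g'.2.1.pow 2)
          (by rw [g'.2.1.natDegree_pow, g'.2.2]; omega)
        rw [g'.2.1.natDegree_pow, g'.2.2] at hres
        have e : n - 3 - 2 * 2 = n - 7 := by omega
        rw [e] at hres
        rw [← hres]
        have hmem : ∀ h : Mon K (n - 3), g'.1 ^ 2 ∣ g.1 ^ 2 * h.1 - C c →
            g'.1 ^ 2 ∣ h.1 - a * C c := by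
          intro h h2
          have : h.1 - a * C c = a * (g.1 ^ 2 * h.1 - C c) + g'.1 ^ 2 * (b * h.1) := by
            linear_combination (-h.1) * hab
          rw [this]
          exact dvd_add (h2.mul_left _) (dvd_mul_right _ _)
        apply Nat.card_le_card_of_injective
          (fun h : ({h : Mon K (n - 3) | IsCoprime g.1 g'.1 ∧
            g'.1 ^ 2 ∣ g.1 ^ 2 * h.1 - C c} : Set _) =>
            (⟨h.1, hmem h.1 h.2.2⟩ : {h : Mon K (n - 3) // g'.1 ^ 2 ∣ h.1 - a * C c}))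
        intro h h' hh
        have h3 := congrArg (fun z : {h : Mon K (n - 3) // g'.1 ^ 2 ∣ h.1 - a * C c} => z.1) hh
        exact Subtype.ext h3
      · have : IsEmpty ({h : Mon K (n - 3) | IsCoprime g.1 g'.1 ∧
            g'.1 ^ 2 ∣ g.1 ^ 2 * h.1 - C c} : Set _) := ⟨fun h => hc h.2.1⟩
        show Nat.card ({h : Mon K (n - 3) | IsCoprime g.1 g'.1 ∧
            g'.1 ^ 2 ∣ g.1 ^ 2 * h.1 - C c} : Set _) ≤ _
        rw [Nat.card_of_isEmpty]
        exact Nat.zero_le _)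
  refine key.trans ?_
  rw [Nat.card_prod, Nat.card_prod, (hC K 2).2]
  have e : n - 2 = 2 + (2 + 1) + (n - 7) := by omega
  rw [e]
  apply le_of_eq
  ring

end Pool.Agent.L7h60.AB
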